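import Mathlib
import Pool.Agent.V11242.RF.Defs
import Pool.Agent.V11242.RN.Defs

/-!
# The sentence `Ψ`
-/

set_option autoImplicit false

namespace Pool.Agent.V11242.SS

open Pool.Agent.TH773.PSet Pool.Agent.V11242.RF Pool.Agent.V11242.RN

universe u

section Forcing

variable (P : Type u) [Preorder P]

/-- Every family of functions from `ω` to `ω` which is indexed by `K` is bounded by one function,
in the sense of eventual domination. -/
def AllBounded (K : Type) : Set P :=
  fall fun G : K → ℕ → ℕ → Set P => fimp (fall fun k => IsFun (G k))
    (fex fun h : ℕ → ℕ → Set P => fand (IsFun h) (fall fun k => LeStar (G k) h))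

/-- The sentence `PsiFor K`, in the forcing language. -/
def PsiHolds (K : Type) : Set P := fand (PhiHolds P K) (AllBounded P K)

end Forcing

/-- The same sentence, outside of the forcing language: `non(N) ≤ |K|`, `|K| < cov(N)`, and every
family of functions from `ω` to `ω` which is indexed by `K` is bounded by one function, in the
sense of eventual domination (that is, `|K| < 𝔟`). -/
def PsiFor (K : Type) : Prop :=
  PhiFor K ∧ ∀ G : K → ℕ → ℕ, ∃ h : ℕ → ℕ, ∀ k, ∃ N, ∀ n, N ≤ n → ∀ a b, b < a →
    ¬ (G k n = a ∧ h n = b)

end Pool.Agent.V11242.SS
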