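import Mathlib
import Pool.Agent.V11242.SS.PsiDefs
import Pool.Agent.V11242.RN.Forced
import Pool.Agent.W684.FM.Ambient
import Pool.Agent.W910.Hull.MATools

/-!
# Under Martin's axiom, random reals force the sentence `Ψ`
-/

set_option autoImplicit false
set_option linter.unusedSectionVars false

namespace Pool.Agent.V11242.SS

/-! ### Martin's axiom and bounded families -/

section Hechler

open Cardinal

/-- finite approximations to a function which dominates the functions `G k` -/
structure HC (K : Type) (G : K → ℕ → ℕ) : Type where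
  /-- the stem -/
  s : List ℕ
  /-- the promises -/
  F : Finset K

variable {K : Type} {G : K → ℕ → ℕ}

theorem getD_of_prefix' {s t : List ℕ} (h : s <+: t) {n : ℕ} (hn : n < s.length) :
    t.getD n 0 = s.getD n 0 := by
  obtain ⟨u, rfl⟩ := h
  exact List.getD_append _ _ _ _ hn

instance : Preorder (HC K G) where
  le p q := q.s <+: p.s ∧ q.F ⊆ p.F ∧ ∀ n, q.s.length ≤ n → n < p.s.length → ∀ k ∈ q.F,
    G k n ≤ p.s.getD n 0
  le_refl p := ⟨List.prefix_rfl, subset_rfl, fun n h1 h2 => absurd h2 (not_lt.2 h1)⟩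
  le_trans p q r h1 h2 := by
    refine ⟨h2.1.trans h1.1, h2.2.1.trans h1.2.1, fun n hn hn' k hk => ?_⟩
    by_cases h : n < q.s.length
    · rw [getD_of_prefix' h1.1 h]
      exact h2.2.2 n hn h k hk
    · exact h1.2.2 n (not_lt.1 h) hn' k (h2.2.1 hk)

theorem ccc_HC : Pool.Agent.W684.IsCCC (HC K G) := by
  classical
  intro A hA
  have h1 : Set.InjOn (fun p : HC K G => p.s) A := by
    intro p hp q hq hpq
    by_contra hne
    simp only at hpq
    refine hA p hp q hq hne ⟨⟨p.s, p.F ∪ q.F⟩, ?_, ?_⟩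
    · exact ⟨List.prefix_rfl, Finset.subset_union_left, fun n h1 h2 => absurd h2 (not_lt.2 h1)⟩
    · exact ⟨hpq ▸ List.prefix_rfl, Finset.subset_union_right,
        fun n h1 h2 => absurd h2 (not_lt.2 (hpq ▸ h1))⟩
  exact Set.countable_of_injective_of_countable_image h1 (Set.to_countable _)

theorem bounded_of_martin (hMA : Pool.Agent.W684.MartinAxiomAleph1) (hK : #K ≤ ℵ₁)
    (G : K → ℕ → ℕ) : ∃ h : ℕ → ℕ, ∀ k, ∃ N, ∀ n, N ≤ n → G k n ≤ h n := by
  classical
  have hne : Nonempty (HC K G) := ⟨⟨[], ∅⟩⟩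
  obtain ⟨Φ, -, -, h3, h4⟩ := Pool.Agent.W910.Hull.ma_indexed hMA (P := HC K G) ccc_HC
    (ι := K ⊕ ℕ) (by
      rw [mk_sum, lift_id, lift_id, mk_nat]
      exact add_le_of_le (aleph0_le_aleph 1) hK (aleph0_le_aleph 1))
    (fun i => Sum.elim (fun k => {p : HC K G | k ∈ p.F}) (fun n => {p | n ≤ p.s.length}) i) (by
      rintro (k | n) p
      · exact ⟨⟨p.s, insert k p.F⟩, Finset.mem_insert_self k p.F, List.prefix_rfl,
          Finset.subset_insert _ _, fun n h1 h2 => absurd h2 (not_lt.2 h1)⟩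
      · refine ⟨⟨p.s ++ (List.range n).map fun i => p.F.sup fun k => G k (p.s.length + i), p.F⟩,
          ?_, List.prefix_append _ _, subset_rfl, fun m h1 h2 k hk => ?_⟩
        · show n ≤ (p.s ++ _).length
          simp
        · simp only [List.length_append, List.length_map, List.length_range] at h2
          rw [List.getD_append_right _ _ _ _ h1, List.getD_eq_getElem _ _ (by simp; omega)]
          simp only [List.getElem_map, List.getElem_range]
          have e : p.s.length + (m - p.s.length) = m := by omega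
          rw [e]
          exact Finset.le_sup (f := fun k => G k m) hk)
  choose p hp hp' using fun n : ℕ => h4 (Sum.inr (n + 1))
  refine ⟨fun n => (p n).s.getD n 0, fun k => ?_⟩
  obtain ⟨q, hq, hqk⟩ := h4 (Sum.inl k)
  refine ⟨q.s.length, fun n hn => ?_⟩
  obtain ⟨r, -, hrq, hrp⟩ := h3 q hq (p n) (hp n)
  have h5 : n < (p n).s.length := hp' n
  have h6 : r.s.getD n 0 = (p n).s.getD n 0 := getD_of_prefix' hrp.1 h5
  show G k n ≤ (p n).s.getD n 0
  rw [← h6]
  exact hrq.2.2 n hn (h5.trans_le hrp.1.length_le) k hqk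

end Hechler

/-! ### Random reals -/

open Pool.Agent.TH773.PSet Pool.Agent.V11242.RF Pool.Agent.V11242.RN

theorem allBounded {K I : Type}
    (hb : ∀ G : K → ℕ → ℕ, ∃ h : ℕ → ℕ, ∀ k, ∃ N, ∀ n, N ≤ n → G k n ≤ h n)
    (p : Random I) : p ∈ AllBounded (Random I) K := by
  intro G
  refine mem_fimp.2 fun q _ hq => ⟨q, le_rfl, ?_⟩
  choose g hg using fun k => exists_leStar (hq k)
  obtain ⟨h, hh⟩ := hb g
  exact mem_fex.2 fun r hr => ⟨r, le_rfl, chk _ h, isFun_chk h r, fun k =>
    (reg_leStar _ _).1 _ (hg k h (hh k)) _ hr⟩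

open Cardinal in
theorem exists_forcing (hMA : Pool.Agent.W684.FM.MartinFor Pool.Agent.W684.FM.Om1) :
    ∃ (K P : Type) (_ : Preorder P), Nonempty P ∧
      (∀ A : Set P, (∀ p ∈ A, ∀ q ∈ A, p ≠ q → ¬ ∃ r, r ≤ p ∧ r ≤ q) → A.Countable) ∧
      ∀ p : P, p ∈ PsiHolds P K := by
  let K : Type := (ℵ₁ : Cardinal.{0}).out
  let I : Type := (ℵ_ 2 : Cardinal.{0}).out
  have hK : ℵ₀ < #K := by
    rw [mk_out]
    exact aleph0_lt_aleph_one
  have hI : #K < #I := by
    rw [mk_out, mk_out]
    exact aleph_lt_aleph.2 (_root_.one_lt_two)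
  have hMA' := Pool.Agent.W684.FM.martinFor_om1_iff.1 hMA
  refine ⟨K, Random I, inferInstance, ⟨RF.mk Set.univ MeasurableSet.univ (by simp)⟩, ?_,
    fun p => ⟨phiHolds hK hI p, allBounded (bounded_of_martin hMA' (mk_out _).le) p⟩⟩
  intro A hA
  refine RF.countable_of_incomp (μ := coinProduct I) (fun p : A => p.1) fun p q hpq => ?_
  exact hA p.1 p.2 q.1 q.2 fun h => hpq (Subtype.ext h)

end Pool.Agent.V11242.SS
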