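import Mathlib
import Pool.Agent.V11242.RN.Ground

/-!
# Independent blocks of random signs
-/

set_option autoImplicit false
set_option linter.unusedSectionVars false

namespace Pool.Agent.V11242.SS

open Cardinal MeasureTheory Set Filter Topology Pool.Agent.V11242.RN

/-- Membership in `A` depends only on the coordinates in `F`. -/
def DepOn (F : Finset ℕ) (A : Set (ℕ → Bool)) : Prop :=
  ∀ x y, (∀ j ∈ F, x j = y j) → x ∈ A → y ∈ A

theorem DepOn.compl {F : Finset ℕ} {A : Set (ℕ → Bool)} (h : DepOn F A) : DepOn F Aᶜ :=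
  fun x y hxy hx hy => hx (h y x (fun j hj => (hxy j hj).symm) hy)

theorem meas_of_dep {F : Finset ℕ} {A : Set (ℕ → Bool)} (h : DepOn F A) :
    MeasurableSet[sg (F : Set ℕ)] A := by
  classical
  have e : A = ⋃ p : F → Bool, ⋃ (_ : ∃ y ∈ A, ∀ j : F, y j = p j),
      ⋂ j : F, {x : ℕ → Bool | x j = p j} := by
    ext x
    simp only [Set.mem_iUnion, Set.mem_iInter, Set.mem_ofPred_eq, exists_prop]
    constructor
    · intro hx
      exact ⟨fun j => x j, ⟨x, hx, fun _ => rfl⟩, fun _ => rfl⟩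
    · rintro ⟨p, ⟨y, hy, hyp⟩, hx⟩
      exact h y x (fun j hj => (hyp ⟨j, hj⟩).trans (hx ⟨j, hj⟩).symm) hy
  rw [e]
  refine @MeasurableSet.iUnion _ _ (sg (F : Set ℕ)) _ _ fun p =>
    @MeasurableSet.iUnion _ _ (sg (F : Set ℕ)) _ _ fun _ =>
    @MeasurableSet.iInter _ _ (sg (F : Set ℕ)) _ _ fun j => ?_
  exact meas_bit (T := (F : Set ℕ)) (t := (j : ℕ)) j.2 _

theorem sg_le (T : Set ℕ) : sg T ≤ MeasurableSpace.pi := iSup₂_le fun t _ => comap_le t

theorem lam_forall_dep {F : ℕ → Finset ℕ} (hF : ∀ m n, m ≠ n → Disjoint (F m) (F n))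
    {E : ℕ → Set (ℕ → Bool)} (hE : ∀ n, DepOn (F n) (E n)) (S : Finset ℕ) :
    lam {x | ∀ n ∈ S, x ∈ E n} = ∏ n ∈ S, lam (E n) := by
  classical
  induction S using Finset.induction_on with
  | empty => simp
  | insert k S hk ih =>
    have e : {x | ∀ j ∈ insert k S, x ∈ E j} = E k ∩ {x | ∀ j ∈ S, x ∈ E j} := by
      ext x
      simp
    have hdep : DepOn (S.biUnion F) {x | ∀ j ∈ S, x ∈ E j} := by
      intro x y hxy hx j hj
      exact hE j x y (fun i hi => hxy i (Finset.mem_biUnion.2 ⟨j, hj, hi⟩)) (hx j hj)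
    rw [e, indep (S := (F k : Set ℕ)) (T := (S.biUnion F : Finset ℕ)) ?_ (meas_of_dep (hE k))
      (meas_of_dep hdep), ih, Finset.prod_insert hk]
    rw [Finset.disjoint_coe, Finset.disjoint_biUnion_right]
    intro j hj
    exact hF k j fun h => hk (h ▸ hj)

theorem null_of_dep {F : ℕ → Finset ℕ} (hF : ∀ m n, m ≠ n → Disjoint (F m) (F n))
    {E : ℕ → Set (ℕ → Bool)} (hE : ∀ n, DepOn (F n) (E n)) {t : ℕ → ℕ}
    (ht : ¬ Summable fun n => (2 : ℝ)⁻¹ ^ t n) {N0 : ℕ}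
    (h0 : ∀ n, N0 ≤ n → (2 : ENNReal)⁻¹ ^ t n ≤ lam (E n)) :
    lam {x | ∃ N, ∀ n, N ≤ n → x ∉ E n} = 0 := by
  have e : {x | ∃ N, ∀ n, N ≤ n → x ∉ E n} = ⋃ N, {x | ∀ n, N ≤ n → x ∉ E n} := by
    ext x
    simp
  rw [e]
  refine measure_iUnion_null fun N => ?_
  have h1 : ∀ M, lam {x | ∀ n, N ≤ n → x ∉ E n} ≤
      ENNReal.ofReal (Real.exp (-∑ k ∈ Finset.Ico (max N N0) M, (2 : ℝ)⁻¹ ^ t k)) := by
    intro M
    have h2 : {x | ∀ n, N ≤ n → x ∉ E n} ⊆
        {x | ∀ n ∈ Finset.Ico (max N N0) M, x ∈ (E n)ᶜ} := by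
      intro x hx n hn
      exact hx n ((le_max_left _ _).trans (Finset.mem_Ico.1 hn).1)
    refine (measure_mono h2).trans ?_
    rw [lam_forall_dep hF fun n => (hE n).compl]
    refine le_trans (Finset.prod_le_prod' (g := fun n => 1 - (2 : ENNReal)⁻¹ ^ t n)
      fun n hn => ?_) (prod_le_exp t _)
    rw [prob_compl_eq_one_sub (sg_le _ _ (meas_of_dep (hE n)))]
    exact tsub_le_tsub_left (h0 n ((le_max_right _ _).trans (Finset.mem_Ico.1 hn).1)) _
  have h3 : Tendsto (fun M => ENNReal.ofReal (Real.exp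
      (-∑ k ∈ Finset.Ico (max N N0) M, (2 : ℝ)⁻¹ ^ t k))) atTop (𝓝 0) := by
    rw [← ENNReal.ofReal_zero]
    refine ENNReal.tendsto_ofReal ?_
    refine Real.tendsto_exp_atBot.comp ?_
    refine tendsto_neg_atTop_atBot.comp ?_
    have h4 := (not_summable_iff_tendsto_nat_atTop_of_nonneg
      (fun k => by positivity : ∀ k, (0 : ℝ) ≤ (2 : ℝ)⁻¹ ^ t k)).1 ht
    have h5 : (fun M => ∑ k ∈ Finset.Ico (max N N0) M, (2 : ℝ)⁻¹ ^ t k) =ᶠ[atTop]
        fun M => ∑ k ∈ Finset.range M, (2 : ℝ)⁻¹ ^ t k +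
          (-∑ k ∈ Finset.range (max N N0), (2 : ℝ)⁻¹ ^ t k) := by
      filter_upwards [eventually_ge_atTop (max N N0)] with M hM
      have := Finset.sum_range_add_sum_Ico (fun k => (2 : ℝ)⁻¹ ^ t k) hM
      linarith
    rw [tendsto_congr' h5]
    exact tendsto_atTop_add_const_right _ _ h4
  exact le_antisymm (ge_of_tendsto' h3 h1) bot_le

/-- the sign given by a bit -/
def sgn (b : Bool) : ℤ := cond b 1 (-1)

theorem sgn_true : sgn true = 1 := rfl
theorem sgn_false : sgn false = -1 := rfl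

theorem abs_sgn (b : Bool) : |sgn b| = 1 := by cases b <;> rfl

theorem prob_ge {c : ℕ → ℤ} {J T : Finset ℕ} (hT : T ⊆ J) (hc : ∀ j ∈ T, c j = 1 ∨ c j = -1) :
    (2 : ENNReal)⁻¹ ^ T.card ≤ lam {x | (T.card : ℤ) ≤ |∑ j ∈ J, c j * sgn (x j)|} := by
  classical
  let R : Finset ℕ := J \ T
  let B : Set (ℕ → Bool) := {x | 0 ≤ ∑ j ∈ R, c j * sgn (x j)}
  let vp : ℕ → Bool := fun j => decide (c j = 1)
  let vm : ℕ → Bool := fun j => decide (c j ≠ 1)
  let Ap : Set (ℕ → Bool) := Set.pi T fun j => {vp j}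
  let Am : Set (ℕ → Bool) := Set.pi T fun j => {vm j}
  have hdis : Disjoint (T : Set ℕ) (R : Set ℕ) := by
    rw [Finset.disjoint_coe]
    exact Finset.disjoint_sdiff
  have hB : DepOn R B := by
    intro x y hxy hx
    have : ∑ j ∈ R, c j * sgn (y j) = ∑ j ∈ R, c j * sgn (x j) :=
      Finset.sum_congr rfl fun j hj => by rw [hxy j hj]
    show 0 ≤ ∑ j ∈ R, c j * sgn (y j)
    rw [this]
    exact hx
  have hA : ∀ v : ℕ → Bool, DepOn T (Set.pi T fun j => {v j}) := by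
    intro v x y hxy hx j hj
    have h1 : x j ∈ ({v j} : Set Bool) := hx j hj
    rw [← hxy j hj]
    exact h1
  have hsum : ∀ x : ℕ → Bool, ∑ j ∈ J, c j * sgn (x j) =
      ∑ j ∈ R, c j * sgn (x j) + ∑ j ∈ T, c j * sgn (x j) := fun x =>
    (Finset.sum_sdiff hT).symm
  have hp : ∀ x ∈ Ap, ∑ j ∈ T, c j * sgn (x j) = T.card := by
    intro x hx
    have : ∀ j ∈ T, c j * sgn (x j) = 1 := by
      intro j hj
      have h1 : x j = decide (c j = 1) := hx j hj
      rw [h1]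
      rcases hc j hj with h | h <;> simp [h, sgn]
    rw [Finset.sum_congr rfl this]
    simp
  have hm : ∀ x ∈ Am, ∑ j ∈ T, c j * sgn (x j) = -T.card := by
    intro x hx
    have : ∀ j ∈ T, c j * sgn (x j) = -1 := by
      intro j hj
      have h1 : x j = decide (c j ≠ 1) := hx j hj
      rw [h1]
      rcases hc j hj with h | h <;> simp [h, sgn]
    rw [Finset.sum_congr rfl this]
    simp
  have h1 : (Ap ∩ B) ∪ (Am ∩ Bᶜ) ⊆ {x | (T.card : ℤ) ≤ |∑ j ∈ J, c j * sgn (x j)|} := by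
    rintro x (⟨hx, hxB⟩ | ⟨hx, hxB⟩)
    · show (T.card : ℤ) ≤ |∑ j ∈ J, c j * sgn (x j)|
      rw [hsum, hp x hx]
      have : 0 ≤ ∑ j ∈ R, c j * sgn (x j) := hxB
      exact le_trans (by linarith) (le_abs_self _)
    · show (T.card : ℤ) ≤ |∑ j ∈ J, c j * sgn (x j)|
      rw [hsum, hm x hx]
      have : ¬ 0 ≤ ∑ j ∈ R, c j * sgn (x j) := hxB
      exact le_trans (by linarith [not_le.1 this]) (neg_le_abs _)
  refine le_trans ?_ (measure_mono h1)
  have hmB : MeasurableSet B := sg_le _ _ (meas_of_dep hB)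
  rw [measure_union ?_ ((sg_le _ _ (meas_of_dep (hA vm))).inter hmB.compl),
    indep hdis (meas_of_dep (hA vp)) (meas_of_dep hB),
    indep hdis (meas_of_dep (hA vm)) (meas_of_dep hB.compl), lam_pi, lam_pi, ← mul_add,
    measure_add_measure_compl hmB, measure_univ, mul_one]
  exact (disjoint_compl_right (a := B)).mono inter_subset_right inter_subset_right

end Pool.Agent.V11242.SS
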