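import Mathlib

/-!
# Convergence of subseries
-/

set_option autoImplicit false

namespace Pool.Agent.V11242.SS

open Cardinal

/-- `X` is infinite and coinfinite. -/
def InfCo (X : Set ℕ) : Prop := X.Infinite ∧ Xᶜ.Infinite

/-- The series `∑ a n` of rational numbers converges (to a real number). -/
def Conv (a : ℕ → ℚ) : Prop :=
  ∃ l : ℝ, Filter.Tendsto (fun N => ∑ n ∈ Finset.range N, (a n : ℝ)) Filter.atTop (nhds l)

/-- The series `∑ a n` converges conditionally: it converges, but the series of the absolute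
values does not. -/
def CondConv (a : ℕ → ℚ) : Prop := Conv a ∧ ¬ Conv fun n => |a n|

/-- The terms of the subseries of `∑ a n` which is given by the infinite set `X`, in increasing
order of the indices. (`Nat.nth` enumerates the elements of `X` in increasing order.) -/
noncomputable def sub (a : ℕ → ℚ) (X : Set ℕ) : ℕ → ℚ := fun n => a (Nat.nth (fun i => i ∈ X) n)

/-- The cardinal `𝔰𝔰_c`. -/
noncomputable def ssc : Cardinal.{0} :=
  sInf {c | ∃ F : Set (Set ℕ), (∀ X ∈ F, InfCo X) ∧
    (∀ a, CondConv a → ∃ X ∈ F, Conv (sub a X)) ∧ #F = c}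

/-- The cardinal `𝔰𝔰_cc`. -/
noncomputable def sscc : Cardinal.{0} :=
  sInf {c | ∃ F : Set (Set ℕ), (∀ X ∈ F, InfCo X) ∧
    (∀ a, CondConv a → ∃ X ∈ F, CondConv (sub a X)) ∧ #F = c}

/-- The least number of meagre sets of reals whose union is the real line. -/
noncomputable def covM : Cardinal.{0} :=
  sInf {c | ∃ F : Set (Set ℝ), (∀ A ∈ F, IsMeagre A) ∧ ⋃₀ F = Set.univ ∧ #F = c}

/-- The least number of meagre subsets of the Baire space whose union is the Baire space. -/
noncomputable def covMBaire : Cardinal.{0} :=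
  sInf {c | ∃ F : Set (Set (ℕ → ℕ)), (∀ A ∈ F, IsMeagre A) ∧ ⋃₀ F = Set.univ ∧ #F = c}

/-- The splitting number. -/
noncomputable def splitNumber : Cardinal.{0} :=
  sInf {c | ∃ F : Set (Set ℕ), (∀ A : Set ℕ, A.Infinite →
    ∃ S ∈ F, (A ∩ S).Infinite ∧ (A \ S).Infinite) ∧ #F = c}

end Pool.Agent.V11242.SS
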