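import Mathlib
import Pool.Agent.V11242.SS.Block
import Pool.Agent.V11242.SS.Defs

/-!
# A series with random signs
-/

set_option autoImplicit false
set_option linter.unusedSectionVars false

namespace Pool.Agent.V11242.SS

open Cardinal MeasureTheory Set Filter Topology Pool.Agent.V11242.RN

/-! ### Partial sums of subseries -/

open Classical in
/-- the partial sums, over the whole of `ω`, of the subseries given by `X` -/
noncomputable def psum (a : ℕ → ℚ) (X : Set ℕ) (m : ℕ) : ℝ :=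
  ∑ i ∈ Finset.range m, if i ∈ X then (a i : ℝ) else 0

open Classical in
theorem psum_eq (a : ℕ → ℚ) (X : Set ℕ) (m : ℕ) :
    psum a X m = ∑ n ∈ Finset.range (Nat.count (fun i => i ∈ X) m), (sub a X n : ℝ) := by
  induction m with
  | zero => simp [psum]
  | succ m ih =>
    unfold psum at ih ⊢
    rw [Finset.sum_range_succ, ih, Nat.count_succ]
    split_ifs with h
    · rw [Finset.sum_range_succ]
      unfold sub
      rw [Nat.nth_count h]
    · simp

open Classical in
theorem tendsto_count {X : Set ℕ} (hX : X.Infinite) :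
    Tendsto (fun m => Nat.count (fun i => i ∈ X) m) atTop atTop := by
  refine tendsto_atTop.2 fun n => ?_
  filter_upwards [eventually_ge_atTop (Nat.nth (fun i => i ∈ X) n)] with m hm
  have h1 := Nat.count_monotone (fun i => i ∈ X) hm
  have h2 : Nat.count (fun i => i ∈ X) (Nat.nth (fun i => i ∈ X) n) = n :=
    Nat.count_nth_of_infinite hX n
  rw [h2] at h1
  exact h1

theorem psum_of_conv {a : ℕ → ℚ} {X : Set ℕ} (hX : X.Infinite) (h : Conv (sub a X)) :
    ∃ l, Tendsto (psum a X) atTop (𝓝 l) := by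
  classical
  obtain ⟨l, hl⟩ := h
  refine ⟨l, ?_⟩
  have h1 := hl.comp (tendsto_count hX)
  refine h1.congr fun m => ?_
  rw [psum_eq]
  rfl

theorem conv_of_psum {a : ℕ → ℚ} {X : Set ℕ} (hX : X.Infinite)
    (h : ∃ l, Tendsto (psum a X) atTop (𝓝 l)) : Conv (sub a X) := by
  classical
  obtain ⟨l, hl⟩ := h
  refine ⟨l, ?_⟩
  have h1 : Tendsto (Nat.nth fun i => i ∈ X) atTop atTop :=
    (Nat.nth_strictMono hX).tendsto_atTop
  refine (hl.comp h1).congr fun n => ?_
  have h2 : Nat.count (fun i => i ∈ X) (Nat.nth (fun i => i ∈ X) n) = n :=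
    Nat.count_nth_of_infinite hX n
  show psum a X _ = _
  rw [psum_eq, h2]

/-! ### The partition -/

section Part

variable (u : ℕ → ℕ)

open Classical in
/-- the signs, and `0` at the end points of the intervals -/
noncomputable def ee (x : ℕ → Bool) (j : ℕ) : ℤ := if ∃ n, u n = j then 0 else sgn (x j)

/-- the index of the interval of `j` -/
def blk (j : ℕ) : ℕ := Nat.findGreatest (fun n => u n ≤ j) j

/-- the size of the walk -/
def tt (n : ℕ) : ℕ := Nat.log 2 (n + 1)

/-- the weight -/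
def ww (j : ℕ) : ℚ := (tt (blk u j) : ℚ)⁻¹

/-- the series -/
noncomputable def aa (x : ℕ → Bool) (j : ℕ) : ℚ := ww u j * ((ee u x (j + 1) : ℚ) - ee u x j)

variable {u}

theorem blk_eq (hu : StrictMono u) {n j : ℕ} (h1 : u n ≤ j) (h2 : j < u (n + 1)) :
    blk u j = n := by
  unfold blk
  rw [Nat.findGreatest_eq_iff]
  refine ⟨(hu.le_apply).trans h1, fun _ => h1, fun m hm _ hle => ?_⟩
  have := hu.monotone (Nat.succ_le_of_lt hm)
  simp only [Nat.succ_eq_add_one] at this
  omega

theorem le_blk (hu : StrictMono u) {n j : ℕ} (h : u n ≤ j) : n ≤ blk u j :=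
  Nat.le_findGreatest ((hu.le_apply).trans h) h

theorem u_blk_le (h0 : u 0 = 0) (j : ℕ) : u (blk u j) ≤ j := by
  have := Nat.findGreatest_spec (P := fun n => u n ≤ j) (m := 0) (n := j) (Nat.zero_le _)
    (by simp [h0])
  exact this

theorem lt_u_blk (hu : StrictMono u) (j : ℕ) : j < u (blk u j + 1) := by
  by_contra h
  have := le_blk hu (not_lt.1 h)
  omega

theorem blk_succ (hu : StrictMono u) (h0 : u 0 = 0) {j : ℕ} (h : ¬ ∃ n, u n = j + 1) :
    blk u (j + 1) = blk u j := by
  refine blk_eq hu ((u_blk_le h0 j).trans (Nat.le_succ j)) ?_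
  have h1 := lt_u_blk hu j
  have h2 : u (blk u j + 1) ≠ j + 1 := fun h3 => h ⟨_, h3⟩
  omega

theorem sum_aa (hu : StrictMono u) (h0 : u 0 = 0) (x : ℕ → Bool) (m : ℕ) :
    ∑ j ∈ Finset.range m, aa u x j = ww u m * ee u x m := by
  induction m with
  | zero =>
    have : ee u x 0 = 0 := if_pos ⟨0, h0⟩
    simp [this]
  | succ m ih =>
    rw [Finset.sum_range_succ, ih]
    unfold aa
    by_cases h : ∃ n, u n = m + 1
    · have : ee u x (m + 1) = 0 := if_pos h
      rw [this]
      push_cast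
      ring
    · have : ww u (m + 1) = ww u m := by
        unfold ww
        rw [blk_succ hu h0 h]
      rw [this]
      ring

theorem tendsto_blk (hu : StrictMono u) : Tendsto (blk u) atTop atTop := by
  refine tendsto_atTop.2 fun n => ?_
  filter_upwards [eventually_ge_atTop (u n)] with m hm using le_blk hu hm

theorem tendsto_tt : Tendsto tt atTop atTop := by
  refine tendsto_atTop.2 fun n => ?_
  filter_upwards [eventually_ge_atTop (2 ^ n)] with m hm
  unfold tt
  exact Nat.le_log_of_pow_le (by norm_num) (hm.trans (Nat.le_succ m))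

theorem tendsto_ww (hu : StrictMono u) : Tendsto (fun m => (ww u m : ℝ)) atTop (𝓝 0) := by
  have h1 : Tendsto (fun m => ((tt (blk u m) : ℕ) : ℝ)⁻¹) atTop (𝓝 0) :=
    tendsto_inv_atTop_zero.comp (tendsto_natCast_atTop_atTop.comp
      (tendsto_tt.comp (tendsto_blk hu)))
  refine h1.congr fun m => ?_
  unfold ww
  push_cast
  rfl

theorem ww_nonneg (m : ℕ) : (0 : ℝ) ≤ (ww u m : ℝ) := by
  unfold ww
  push_cast
  positivity

theorem abs_ee (x : ℕ → Bool) (m : ℕ) : |(ee u x m : ℝ)| ≤ 1 := by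
  unfold ee
  split_ifs
  · simp
  · have := abs_sgn (x m)
    have h2 : |((sgn (x m) : ℤ) : ℝ)| = 1 := by exact_mod_cast this
    exact h2.le

theorem conv_aa (hu : StrictMono u) (h0 : u 0 = 0) (x : ℕ → Bool) : Conv (aa u x) := by
  refine ⟨0, ?_⟩
  have h1 : ∀ m, ∑ j ∈ Finset.range m, (aa u x j : ℝ) = (ww u m : ℝ) * ee u x m := by
    intro m
    have := sum_aa hu h0 x m
    exact_mod_cast this
  simp only [h1]
  refine squeeze_zero_norm (fun m => ?_) (tendsto_ww hu)
  rw [Real.norm_eq_abs, abs_mul, abs_of_nonneg (ww_nonneg m)]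
  exact mul_le_of_le_one_right (ww_nonneg m) (abs_ee x m)

end Part

/-! ### The random walk -/

open Classical in
/-- the characteristic function of `X` -/
noncomputable def chi (X : Set ℕ) (j : ℕ) : ℤ := if j ∈ X then 1 else 0

/-- the difference of two consecutive values of the characteristic function -/
noncomputable def cc (X : Set ℕ) (j : ℕ) : ℤ := chi X (j - 1) - chi X j

theorem cc_cases (X : Set ℕ) (j : ℕ) : cc X j = 0 ∨ cc X j = 1 ∨ cc X j = -1 := by
  unfold cc chi
  split_ifs <;> simp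

theorem abel (χ e : ℕ → ℤ) (p : ℕ) (hp : e p = 0) (k : ℕ) :
    ∑ i ∈ Finset.Ico p (p + 1 + k), χ i * (e (i + 1) - e i) =
      χ (p + k) * e (p + 1 + k) +
        ∑ j ∈ Finset.Ico (p + 1) (p + 1 + k), (χ (j - 1) - χ j) * e j := by
  induction k with
  | zero => simp [hp]
  | succ k ih =>
    rw [← Nat.add_assoc, Finset.sum_Ico_succ_top (by omega), ih,
      Finset.sum_Ico_succ_top (by omega)]
    have e1 : p + 1 + k - 1 = p + k := by omega
    have e2 : p + (k + 1) = p + 1 + k := by omega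
    rw [e1, e2]
    ring

/-- the interior of the interval -/
def jj (u : ℕ → ℕ) (n : ℕ) : Finset ℕ := Finset.Ico (u n + 1) (u (n + 1))

/-- the sum over the `n`-th interval -/
noncomputable def walk (u : ℕ → ℕ) (X : Set ℕ) (n : ℕ) (x : ℕ → Bool) : ℤ :=
  ∑ j ∈ jj u n, cc X j * sgn (x j)

theorem ee_of_mem {u : ℕ → ℕ} (hu : StrictMono u) (x : ℕ → Bool) {n j : ℕ} (hj : j ∈ jj u n) :
    ee u x j = sgn (x j) := by
  unfold jj at hj
  rw [Finset.mem_Ico] at hj
  unfold ee
  rw [if_neg]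
  rintro ⟨m, hm⟩
  have h1 : u n < u m := by omega
  have h2 : u m < u (n + 1) := by omega
  have h3 := hu.lt_iff_lt.1 h1
  have h4 := hu.lt_iff_lt.1 h2
  omega

theorem block_sum {u : ℕ → ℕ} (hu : StrictMono u) (X : Set ℕ) (n : ℕ) (x : ℕ → Bool) :
    psum (aa u x) X (u (n + 1)) - psum (aa u x) X (u n) = (tt n : ℝ)⁻¹ * walk u X n x := by
  classical
  have hlt : u n < u (n + 1) := hu (Nat.lt_succ_self n)
  have h1 : psum (aa u x) X (u (n + 1)) - psum (aa u x) X (u n) =
      ∑ i ∈ Finset.Ico (u n) (u (n + 1)), if i ∈ X then (aa u x i : ℝ) else 0 := by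
    unfold psum
    rw [Finset.sum_Ico_eq_sub _ hlt.le]
  have h2 : ∀ i ∈ Finset.Ico (u n) (u (n + 1)), (if i ∈ X then (aa u x i : ℝ) else 0) =
      (tt n : ℝ)⁻¹ * ((chi X i * (ee u x (i + 1) - ee u x i) : ℤ) : ℝ) := by
    intro i hi
    rw [Finset.mem_Ico] at hi
    unfold chi aa ww
    rw [blk_eq hu hi.1 hi.2]
    split_ifs <;> push_cast <;> ring
  rw [h1, Finset.sum_congr rfl h2, ← Finset.mul_sum, ← Int.cast_sum]
  congr 2
  obtain ⟨k, hk⟩ : ∃ k, u (n + 1) = u n + 1 + k := ⟨u (n + 1) - (u n + 1), by omega⟩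
  have h3 : ee u x (u n) = 0 := if_pos ⟨n, rfl⟩
  have h4 : ee u x (u (n + 1)) = 0 := if_pos ⟨n + 1, rfl⟩
  have h5 := abel (chi X) (ee u x) (u n) h3 k
  rw [← hk, h4, mul_zero, zero_add] at h5
  rw [h5]
  unfold walk jj
  refine Finset.sum_congr rfl fun j hj => ?_
  rw [ee_of_mem hu x (n := n) hj]
  rfl

theorem not_psum {u : ℕ → ℕ} (hu : StrictMono u) {X : Set ℕ} {x : ℕ → Bool}
    (h : ∀ N, ∃ n, N ≤ n ∧ (tt n : ℤ) ≤ |walk u X n x|) :
    ¬ ∃ l, Tendsto (psum (aa u x) X) atTop (𝓝 l) := by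
  rintro ⟨l, hl⟩
  have h1 : Tendsto (fun n => psum (aa u x) X (u (n + 1)) - psum (aa u x) X (u n)) atTop
      (𝓝 (l - l)) :=
    (hl.comp (hu.tendsto_atTop.comp (tendsto_add_atTop_nat 1))).sub
      (hl.comp hu.tendsto_atTop)
  rw [sub_self] at h1
  simp only [block_sum hu] at h1
  have h2 := (tendsto_order.1 h1.abs).2 1 (by simp)
  obtain ⟨N, hN⟩ := eventually_atTop.1 h2
  obtain ⟨n, hn, hn'⟩ := h (max N 1)
  have h3 := hN n ((le_max_left _ _).trans hn)
  have h4 : 0 < tt n := Nat.log_pos (by norm_num) (by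
    have := (le_max_right N 1).trans hn
    omega)
  have h5 : (0 : ℝ) < tt n := by exact_mod_cast h4
  rw [abs_mul, abs_of_pos (inv_pos.2 h5), inv_mul_lt_iff₀ h5, mul_one] at h3
  have h6 : (tt n : ℝ) ≤ |(walk u X n x : ℝ)| := by exact_mod_cast hn'
  linarith

theorem not_summable_tt : ¬ Summable fun n => (2 : ℝ)⁻¹ ^ tt n := by
  intro h
  have h1 : Summable fun n : ℕ => (1 : ℝ) / ((n + 1 : ℕ) : ℝ) := by
    refine Summable.of_nonneg_of_le (fun n => by positivity) (fun n => ?_) h
    rw [inv_pow, one_div]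
    refine inv_anti₀ (by positivity) ?_
    have : 2 ^ tt n ≤ n + 1 := Nat.pow_log_le_self 2 (Nat.succ_ne_zero n)
    exact_mod_cast this
  exact Real.not_summable_one_div_natCast ((summable_nat_add_iff 1).1 h1)

theorem tt_le (n : ℕ) : tt n ≤ n := by
  unfold tt
  have h1 : Nat.log 2 (n + 1) < n + 1 := by
    rw [Nat.log_lt_iff_lt_pow (by norm_num) (Nat.succ_ne_zero n)]
    exact Nat.lt_two_pow_self
  omega

theorem dep_walk (u : ℕ → ℕ) (X : Set ℕ) (n : ℕ) :
    DepOn (jj u n) {x | (tt n : ℤ) ≤ |walk u X n x|} := by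
  intro x y hxy hx
  have : walk u X n y = walk u X n x :=
    Finset.sum_congr rfl fun j hj => by rw [hxy j hj]
  show (tt n : ℤ) ≤ |walk u X n y|
  rw [this]
  exact hx

theorem disjoint_jj {u : ℕ → ℕ} (hu : StrictMono u) (m n : ℕ) (h : m ≠ n) :
    Disjoint (jj u m) (jj u n) := by
  rw [Finset.disjoint_left]
  intro j h1 h2
  unfold jj at h1 h2
  rw [Finset.mem_Ico] at h1 h2
  rcases lt_or_gt_of_ne h with h3 | h3
  · have := hu.monotone (Nat.succ_le_of_lt h3)
    simp only [Nat.succ_eq_add_one] at this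
    omega
  · have := hu.monotone (Nat.succ_le_of_lt h3)
    simp only [Nat.succ_eq_add_one] at this
    omega

theorem walk_large {u : ℕ → ℕ} {X : Set ℕ} {n : ℕ}
    (h : tt n ≤ ((jj u n).filter fun j => cc X j ≠ 0).card) :
    (2 : ENNReal)⁻¹ ^ tt n ≤ lam {x | (tt n : ℤ) ≤ |walk u X n x|} := by
  obtain ⟨T, hT, hcard⟩ := Finset.exists_subset_card_eq h
  have h1 := prob_ge (c := cc X) (J := jj u n) (T := T)
    (hT.trans (Finset.filter_subset _ _)) (fun j hj => by
      rcases cc_cases X j with h2 | h2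
      · exact absurd h2 (Finset.mem_filter.1 (hT hj)).2
      · exact h2)
  rw [hcard] at h1
  exact h1

/-- Infinitely many alternations. -/
theorem exists_alt {X : Set ℕ} (hX : InfCo X) (m r : ℕ) :
    ∃ q, r ≤ ((Finset.Ico (m + 1) q).filter fun j => cc X j ≠ 0).card := by
  classical
  induction r with
  | zero => exact ⟨0, Nat.zero_le _⟩
  | succ r ih =>
    obtain ⟨q, hq⟩ := ih
    obtain ⟨j, hj, hj'⟩ : ∃ j, max q (m + 1) ≤ j ∧ cc X j ≠ 0 := by
      by_contra hcon
      push Not at hcon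
      have h1 : ∀ k, chi X (max q (m + 1) + k) = chi X (max q (m + 1)) := by
        intro k
        induction k with
        | zero => rfl
        | succ k ih =>
          have h2 := hcon (max q (m + 1) + (k + 1)) (Nat.le_add_right _ _)
          unfold cc at h2
          have e1 : max q (m + 1) + (k + 1) - 1 = max q (m + 1) + k := by omega
          rw [e1] at h2
          omega
      obtain ⟨i, hi, hi'⟩ := hX.1.exists_gt (max q (m + 1))
      obtain ⟨i', hi1, hi1'⟩ := hX.2.exists_gt (max q (m + 1))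
      obtain ⟨k, rfl⟩ := Nat.exists_eq_add_of_lt hi'
      obtain ⟨k', rfl⟩ := Nat.exists_eq_add_of_lt hi1'
      have h3 := h1 (k + 1)
      have h4 := h1 (k' + 1)
      rw [← Nat.add_assoc] at h3 h4
      have h5 : chi X (max q (m + 1) + k + 1) = 1 := if_pos hi
      have h6 : chi X (max q (m + 1) + k' + 1) = 0 := if_neg hi1
      omega
    refine ⟨j + 1, ?_⟩
    have h1 : insert j ((Finset.Ico (m + 1) q).filter fun j => cc X j ≠ 0) ⊆
        (Finset.Ico (m + 1) (j + 1)).filter fun j => cc X j ≠ 0 := by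
      intro i hi
      rw [Finset.mem_insert, Finset.mem_filter, Finset.mem_Ico] at hi
      rw [Finset.mem_filter, Finset.mem_Ico]
      rcases hi with rfl | hi
      · exact ⟨⟨by omega, by omega⟩, hj'⟩
      · exact ⟨⟨by omega, by omega⟩, hi.2⟩
    have h2 := Finset.card_le_card h1
    rw [Finset.card_insert_of_notMem] at h2
    · omega
    · intro h3
      rw [Finset.mem_filter, Finset.mem_Ico] at h3
      omega

/-- If every family of functions indexed by `K` is bounded and `2^ω` is not covered by null sets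
indexed by `K`, then no family of infinite coinfinite sets indexed by `K` suffices. -/
theorem exists_series {K : Type} (hne : Nonempty K)
    (hb : ∀ G : K → ℕ → ℕ, ∃ h : ℕ → ℕ, ∀ k, ∃ N, ∀ n, N ≤ n → G k n ≤ h n)
    (hc : ∀ N : K → Set (ℕ → Bool), (∀ k, lam (N k) = 0) → ∃ x, ∀ k, x ∉ N k)
    (X : K → Set ℕ) (hX : ∀ k, InfCo (X k)) :
    ∃ a, CondConv a ∧ ∀ k, ¬ Conv (sub a (X k)) := by
  classical
  choose G hG using fun (k : K) (m : ℕ) => exists_alt (hX k) m m
  obtain ⟨h, hh⟩ := hb G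
  let u : ℕ → ℕ := fun n => Nat.rec 0 (fun _ c => max (h c) (c + 1)) n
  have hu0 : u 0 = 0 := rfl
  have husucc : ∀ n, u (n + 1) = max (h (u n)) (u n + 1) := fun n => rfl
  have hu : StrictMono u := strictMono_nat_of_lt_succ fun n => by
    rw [husucc]
    exact (Nat.lt_succ_self _).trans_le (le_max_right _ _)
  have hlarge : ∀ k, ∃ N0, ∀ n, N0 ≤ n →
      (2 : ENNReal)⁻¹ ^ tt n ≤ lam {x | (tt n : ℤ) ≤ |walk u (X k) n x|} := by
    intro k
    obtain ⟨N, hN⟩ := hh k
    refine ⟨N, fun n hn => walk_large ?_⟩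
    have h1 : n ≤ u n := hu.le_apply
    have h2 : G k (u n) ≤ u (n + 1) := by
      rw [husucc]
      exact (hN (u n) (hn.trans h1)).trans (le_max_left _ _)
    refine (tt_le n).trans (h1.trans ((hG k (u n)).trans (Finset.card_le_card ?_)))
    refine Finset.filter_subset_filter _ ?_
    exact Finset.Ico_subset_Ico_right h2
  choose N0 hN0 using hlarge
  obtain ⟨x, hx⟩ := hc (fun k => {x | ∃ N, ∀ n, N ≤ n →
      x ∉ {x | (tt n : ℤ) ≤ |walk u (X k) n x|}}) fun k =>
    null_of_dep (disjoint_jj hu) (dep_walk u (X k)) not_summable_tt (hN0 k)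
  have hx' : ∀ k, ∀ N, ∃ n, N ≤ n ∧ (tt n : ℤ) ≤ |walk u (X k) n x| := by
    intro k N
    by_contra hcon
    push Not at hcon
    exact hx k ⟨N, fun n hn => not_le.2 (hcon n hn)⟩
  refine ⟨aa u x, ⟨conv_aa hu hu0 x, ?_⟩, fun k hk =>
    not_psum hu (hx' k) (psum_of_conv (hX k).1 hk)⟩
  rintro ⟨l, hl⟩
  obtain ⟨k⟩ := hne
  refine not_psum hu (hx' k) ?_
  have h1 : Summable fun n => |(aa u x n : ℝ)| := by
    have h2 : ∀ n, (((|aa u x n| : ℚ)) : ℝ) = |(aa u x n : ℝ)| := fun n => by push_cast; rfl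
    simp only [h2] at hl
    exact ((hasSum_iff_tendsto_nat_of_nonneg (fun n => abs_nonneg _) l).2 hl).summable
  have h2 : Summable fun i => if i ∈ X k then (aa u x i : ℝ) else 0 := by
    refine Summable.of_norm_bounded h1 fun i => ?_
    split_ifs
    · exact le_rfl
    · simp
  exact ⟨_, h2.hasSum.tendsto_sum_nat⟩

end Pool.Agent.V11242.SS
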