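import Mathlib
import Pool.Agent.V11242.SS.Series
import Pool.Agent.V11242.SS.PsiDefs

/-!
# The sentence `Ψ` implies `𝔰, cov(M) < 𝔰𝔰_c`
-/

set_option autoImplicit false
set_option linter.unusedSectionVars false

namespace Pool.Agent.V11242.SS

open Cardinal MeasureTheory Set Filter Topology Pool.Agent.V11242.RN

/-! ### Sparse sets -/

theorem term_tendsto {a : ℕ → ℚ} (h : Conv a) : Tendsto (fun n => (a n : ℝ)) atTop (𝓝 0) := by
  obtain ⟨l, hl⟩ := h
  have h1 := (hl.comp (tendsto_add_atTop_nat 1)).sub hl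
  rw [sub_self] at h1
  refine h1.congr fun n => ?_
  simp only [Function.comp]
  rw [Finset.sum_range_succ]
  ring

theorem exists_sparse {a : ℕ → ℚ} (h : CondConv a) :
    ∃ Y : Set ℕ, InfCo Y ∧ Conv (sub a Y) ∧ CondConv (sub a Yᶜ) := by
  classical
  have h1 : ∀ c n : ℕ, ∃ M, c < M ∧ |(a M : ℝ)| ≤ (1 / 2 : ℝ) ^ n := by
    intro c n
    have h2 := (tendsto_order.1 (term_tendsto h.1).abs).2 ((1 / 2 : ℝ) ^ n)
      (by simp)
    obtain ⟨M, hM⟩ := eventually_atTop.1 h2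
    exact ⟨max M (c + 1), (Nat.lt_succ_self c).trans_le (le_max_right _ _),
      (hM _ (le_max_left _ _)).le⟩
  choose M hM hM' using h1
  let i : ℕ → ℕ := fun n => Nat.rec (M 0 0) (fun n c => M (c + 1) (n + 1)) n
  have hs : ∀ n, i (n + 1) = M (i n + 1) (n + 1) := fun n => rfl
  have hlt : ∀ n, i n + 1 < i (n + 1) := fun n => by
    rw [hs]
    exact hM _ _
  have hmono : StrictMono i := strictMono_nat_of_lt_succ fun n => (Nat.lt_succ_self _).trans (hlt n)
  have hsmall : ∀ n, |(a (i n) : ℝ)| ≤ (1 / 2 : ℝ) ^ n := by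
    intro n
    cases n with
    | zero => exact hM' 0 0
    | succ n => exact hM' _ _
  let Y : Set ℕ := range i
  have hY1 : Y.Infinite := infinite_range_of_injective hmono.injective
  have hY2 : Yᶜ.Infinite := by
    have h2 : range (fun n => i n + 1) ⊆ Yᶜ := by
      rintro _ ⟨n, rfl⟩ ⟨m, hm⟩
      simp only at hm
      rcases lt_or_ge m (n + 1) with h3 | h3
      · have := hmono.monotone (Nat.le_of_lt_succ h3)
        omega
      · have := hmono.monotone h3
        have := hlt n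
        omega
    refine (infinite_range_of_injective ?_).mono h2
    intro m n hmn
    exact hmono.injective (Nat.succ_injective hmn)
  have hsumY : Summable fun j => if j ∈ Y then |(a j : ℝ)| else 0 := by
    have h2 : Summable fun n => |(a (i n) : ℝ)| :=
      Summable.of_nonneg_of_le (fun n => abs_nonneg _) hsmall
        (summable_geometric_of_lt_one (by norm_num) (by norm_num))
    have h3 : (fun j => if j ∈ Y then |(a j : ℝ)| else 0) =
        Function.extend i (fun n => |(a (i n) : ℝ)|) 0 := by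
      funext j
      by_cases hj : j ∈ Y
      · obtain ⟨n, rfl⟩ := hj
        rw [hmono.injective.extend_apply, if_pos ⟨n, rfl⟩]
      · rw [if_neg hj, Function.extend_apply' _ _ _ (fun ⟨n, hn⟩ => hj ⟨n, hn⟩)]
        rfl
    rw [h3]
    exact (hmono.injective.summable_iff (fun j hj => by
      rw [Function.extend_apply' _ _ _ (fun ⟨n, hn⟩ => hj ⟨n, hn⟩)]
      rfl)).1 (by
        refine h2.congr fun n => ?_
        simp [hmono.injective.extend_apply])
  have hpY : ∃ l, Tendsto (psum a Y) atTop (𝓝 l) := by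
    have h2 : Summable fun j => if j ∈ Y then (a j : ℝ) else 0 := by
      refine Summable.of_norm_bounded hsumY fun j => ?_
      split_ifs
      · exact le_rfl
      · simp
    exact ⟨_, h2.hasSum.tendsto_sum_nat⟩
  have hpYc : ∃ l, Tendsto (psum a Yᶜ) atTop (𝓝 l) := by
    obtain ⟨l, hl⟩ := hpY
    obtain ⟨l', hl'⟩ := h.1
    refine ⟨l' - l, (hl'.sub hl).congr fun m => ?_⟩
    unfold psum
    rw [← Finset.sum_sub_distrib]
    refine Finset.sum_congr rfl fun j _ => ?_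
    by_cases hj : j ∈ Y <;> simp [hj]
  refine ⟨Y, ⟨hY1, hY2⟩, conv_of_psum hY1 hpY, conv_of_psum hY2 hpYc, fun hcon => h.2 ?_⟩
  have hcon' : Conv (sub (fun n => |a n|) Yᶜ) := hcon
  obtain ⟨l, hl⟩ := psum_of_conv hY2 hcon'
  have h3 : Summable fun j => if j ∈ Yᶜ then |(a j : ℝ)| else 0 := by
    refine ((hasSum_iff_tendsto_nat_of_nonneg (fun j => ?_) l).2 ?_).summable
    · split_ifs
      · exact abs_nonneg _
      · exact le_rfl
    · refine hl.congr fun m => ?_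
      unfold psum
      refine Finset.sum_congr rfl fun j _ => ?_
      push_cast
      rfl
  have h4 : Summable fun j => |(a j : ℝ)| := by
    refine (hsumY.add h3).congr fun j => ?_
    by_cases hj : j ∈ Y <;> simp [hj]
  refine ⟨_, h4.hasSum.tendsto_sum_nat.congr fun m => ?_⟩
  refine Finset.sum_congr rfl fun j _ => ?_
  push_cast
  rfl

theorem InfCo.compl {X : Set ℕ} (h : InfCo X) : InfCo Xᶜ := ⟨h.2, by rw [compl_compl]; exact h.1⟩

theorem sscc_nonempty : {c : Cardinal.{0} | ∃ F : Set (Set ℕ), (∀ X ∈ F, InfCo X) ∧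
    (∀ a, CondConv a → ∃ X ∈ F, CondConv (sub a X)) ∧ #F = c}.Nonempty := by
  refine ⟨_, {X | InfCo X}, fun X hX => hX, fun a ha => ?_, rfl⟩
  obtain ⟨Y, hY, -, h2⟩ := exists_sparse ha
  exact ⟨Yᶜ, hY.compl, h2⟩

theorem ssc_le_sscc : ssc ≤ sscc := by
  refine csInf_le_csInf' sscc_nonempty ?_
  rintro c ⟨F, h1, h2, h3⟩
  refine ⟨F, h1, fun a ha => ?_, h3⟩
  obtain ⟨X, hX, hX'⟩ := h2 a ha
  exact ⟨X, hX, hX'.1⟩

theorem infCo_even : InfCo {n | Even n} := by
  constructor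
  · refine Set.infinite_of_not_bddAbove fun ⟨b, hb⟩ => ?_
    have : 2 * (b + 1) ≤ b := hb (show Even (2 * (b + 1)) from even_two_mul _)
    omega
  · refine Set.infinite_of_not_bddAbove fun ⟨b, hb⟩ => ?_
    have : 2 * b + 1 ≤ b := hb (show ¬ Even (2 * b + 1) from Nat.not_even_iff_odd.2 ⟨b, rfl⟩)
    omega

theorem nonempty_of_phi {K : Type} (h : PhiFor K) : Nonempty K := by
  obtain ⟨r, hr⟩ := exists_nonnull h
  obtain ⟨k, -⟩ := hr ∅ (by simp)
  exact ⟨k⟩

theorem lt_ssc {K : Type} (h : PsiFor K) : #K < ssc := by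
  classical
  have hne : {c : Cardinal.{0} | ∃ F : Set (Set ℕ), (∀ X ∈ F, InfCo X) ∧
      (∀ a, CondConv a → ∃ X ∈ F, Conv (sub a X)) ∧ #F = c}.Nonempty := by
    obtain ⟨c, F, h1, h2, h3⟩ := sscc_nonempty
    exact ⟨c, F, h1, fun a ha => by
      obtain ⟨X, hX, hX'⟩ := h2 a ha
      exact ⟨X, hX, hX'.1⟩, h3⟩
  obtain ⟨F, hF, hF', hc⟩ := csInf_mem hne
  have hc' : #F = ssc := hc
  rw [← hc', ← not_le]
  rintro ⟨e⟩
  let X : K → Set ℕ := fun k => if hk : ∃ f : F, e f = k then hk.choose.1 else {n | Even n}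
  have hX : ∀ k, InfCo (X k) := by
    intro k
    by_cases hk : ∃ f : F, e f = k
    · have : X k = hk.choose.1 := dif_pos hk
      rw [this]
      exact hF _ hk.choose.2
    · have : X k = {n | Even n} := dif_neg hk
      rw [this]
      exact infCo_even
  obtain ⟨a, ha, ha'⟩ := exists_series (nonempty_of_phi h.1) (fun G => by
    obtain ⟨g, hg⟩ := h.2 G
    refine ⟨g, fun k => ?_⟩
    obtain ⟨N, hN⟩ := hg k
    refine ⟨N, fun n hn => ?_⟩
    by_contra hlt
    exact hN n hn _ _ (not_le.1 hlt) ⟨rfl, rfl⟩)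
    (fun N hN => exists_notMem h.1 N hN) X hX
  obtain ⟨Y, hY, hY'⟩ := hF' a ha
  refine ha' (e ⟨Y, hY⟩) ?_
  have hk : ∃ f : F, e f = e ⟨Y, hY⟩ := ⟨_, rfl⟩
  have h1 : X (e ⟨Y, hY⟩) = hk.choose.1 := dif_pos hk
  have h2 : hk.choose = ⟨Y, hY⟩ := e.injective hk.choose_spec
  rw [h1, h2]
  exact hY'

/-! ### The covering number of the meagre ideal -/

/-- the number written in the first `n` bits of the block with index `n` -/
def rd (x : ℕ → Bool) (n : ℕ) : ℕ := Nat.ofBits fun j : Fin n => x (Nat.pair n j)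

theorem rd_mem (x : ℕ → Bool) (n : ℕ) : x ∈ wr n n (rd x n) := by
  intro j hj
  unfold rd
  rw [Nat.testBit_ofBits_lt _ _ hj]

theorem rd_lt (x : ℕ → Bool) (n : ℕ) : rd x n < 2 ^ n := Nat.ofBits_lt_two_pow _

theorem null_often (f : ℕ → ℕ) : lam {x | ¬ ∃ N, ∀ n, N ≤ n → f n ≠ rd x n} = 0 := by
  have h1 : ∑' n, lam (wr n n (f n)) ≠ ⊤ := by
    simp only [lam_wr]
    exact Pool.Agent.TH773.PSet.tsum_two
  rw [← ae_iff]
  filter_upwards [ae_eventually_notMem h1] with x hx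
  obtain ⟨N, hN⟩ := eventually_atTop.1 hx
  refine ⟨N, fun n hn h => hN n hn ?_⟩
  rw [h]
  exact rd_mem x n

theorem exists_eventually_different {K : Type} (h : PhiFor K) : ∃ g : K → ℕ → ℕ,
    (∀ k n, g k n < 2 ^ n) ∧ ∀ f : ℕ → ℕ, ∃ k, ∃ N, ∀ n, N ≤ n → f n ≠ g k n := by
  obtain ⟨r, hr⟩ := exists_nonnull h
  refine ⟨fun k => rd (r k), fun k n => rd_lt _ _, fun f => ?_⟩
  obtain ⟨k, hk⟩ := hr _ (null_often f)
  exact ⟨k, not_not.1 hk⟩

/-- the `n`-th digit block of a real number -/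
noncomputable def dg (y : ℝ) (n : ℕ) : ℕ := (⌊y * 4 ^ n⌋ % 2 ^ n).toNat

theorem isMeagre_real {g : ℕ → ℕ} (hg : ∀ n, g n < 2 ^ n) :
    IsMeagre {y : ℝ | ∃ N, ∀ n, N ≤ n → dg y n ≠ g n} := by
  have e : {y : ℝ | ∃ N, ∀ n, N ≤ n → dg y n ≠ g n} =
      ⋃ N : ℕ, {y : ℝ | ∀ n, N ≤ n → dg y n ≠ g n} := by
    ext y
    simp
  rw [e]
  refine isMeagre_iUnion fun N => IsNowhereDense.isMeagre ?_
  rw [IsNowhereDense, Set.eq_empty_iff_forall_notMem]
  intro y hy
  obtain ⟨ε, hε, hball⟩ := Metric.isOpen_iff.1 isOpen_interior y hy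
  obtain ⟨n, hn, hn'⟩ : ∃ n, N ≤ n ∧ (1 / 2 : ℝ) ^ n < ε := by
    have h1 := (tendsto_order.1 (tendsto_pow_atTop_nhds_zero_of_lt_one
      (r := (1 / 2 : ℝ)) (by norm_num) (by norm_num))).2 ε hε
    obtain ⟨M, hM⟩ := eventually_atTop.1 h1
    exact ⟨max M N, le_max_right _ _, hM _ (le_max_left _ _)⟩
  let m : ℤ := ⌊y * 2 ^ n⌋
  have hm1 : (m : ℝ) ≤ y * 2 ^ n := Int.floor_le _
  have hm2 : y * 2 ^ n < m + 1 := Int.lt_floor_add_one _
  have h2 : (0 : ℝ) < 2 ^ n := by positivity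
  have h4 : (4 : ℝ) ^ n = 2 ^ n * 2 ^ n := by
    rw [← mul_pow]
    norm_num
  have hg1 : (g n : ℝ) + 1 ≤ 2 ^ n := by exact_mod_cast hg n
  -- the point in the middle of the interval
  let z : ℝ := (m * 2 ^ n + g n + 1 / 2) / 4 ^ n
  have hz : z * 4 ^ n = m * 2 ^ n + g n + 1 / 2 := div_mul_cancel₀ _ (by positivity)
  have hO : IsOpen {w : ℝ | (m * 2 ^ n + g n : ℝ) < w * 4 ^ n ∧ w * 4 ^ n < m * 2 ^ n + g n + 1} :=
    (isOpen_lt continuous_const (continuous_id.mul continuous_const)).inter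
      (isOpen_lt (continuous_id.mul continuous_const) continuous_const)
  have hzcl : z ∈ closure {y : ℝ | ∀ n, N ≤ n → dg y n ≠ g n} := by
    apply interior_subset
    apply hball
    rw [Metric.mem_ball, Real.dist_eq, abs_lt]
    have h5 : (1 / 2 : ℝ) ^ n * (2 ^ n * 2 ^ n) = 2 ^ n := by
      rw [← mul_assoc, ← mul_pow]
      norm_num
    have h6 : z * (2 ^ n * 2 ^ n) = m * 2 ^ n + g n + 1 / 2 := by rw [← h4]; exact hz
    have h7 : (0 : ℝ) < 2 ^ n * 2 ^ n := by positivity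
    have h8 : (0 : ℝ) ≤ g n := Nat.cast_nonneg _
    constructor
    · have : -((1 / 2 : ℝ) ^ n) < z - y := by
        rw [← mul_lt_mul_iff_left₀ h7]
        have h9 : y * (2 ^ n * 2 ^ n) < (m + 1) * 2 ^ n := by
          rw [← mul_assoc]
          exact mul_lt_mul_of_pos_right hm2 h2
        nlinarith
      linarith
    · have : z - y < (1 / 2 : ℝ) ^ n := by
        rw [← mul_lt_mul_iff_left₀ h7]
        have h9 : (m : ℝ) * 2 ^ n ≤ y * (2 ^ n * 2 ^ n) := by
          rw [← mul_assoc]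
          exact mul_le_mul_of_nonneg_right hm1 h2.le
        nlinarith
      linarith
  obtain ⟨w, hwO, hw⟩ := mem_closure_iff.1 hzcl _ hO ⟨by rw [hz]; linarith, by rw [hz]; linarith⟩
  refine hw n hn ?_
  unfold dg
  have h5 : ⌊w * 4 ^ n⌋ = m * 2 ^ n + g n := by
    rw [Int.floor_eq_iff]
    push_cast
    exact ⟨hwO.1.le, hwO.2⟩
  rw [h5]
  have h6 : (m * 2 ^ n + (g n : ℤ)) % 2 ^ n = g n := by
    rw [Int.add_comm, Int.add_mul_emod_self_right]
    refine Int.emod_eq_of_lt (by positivity) ?_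
    exact_mod_cast hg n
  rw [h6]
  simp

theorem covM_le {K : Type} (h : PhiFor K) : covM ≤ #K := by
  obtain ⟨g, hg, hg'⟩ := exists_eventually_different h
  have h1 : covM ≤ #(range fun k => {y : ℝ | ∃ N, ∀ n, N ≤ n → dg y n ≠ g k n}) := by
    refine csInf_le' ⟨_, ?_, ?_, rfl⟩
    · rintro _ ⟨k, rfl⟩
      exact isMeagre_real (hg k)
    · refine eq_univ_of_forall fun y => ?_
      obtain ⟨k, hk⟩ := hg' (dg y)
      exact mem_sUnion.2 ⟨_, ⟨k, rfl⟩, hk⟩
  exact h1.trans mk_range_le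

theorem isMeagre_baire (g : ℕ → ℕ) : IsMeagre {f : ℕ → ℕ | ∃ N, ∀ n, N ≤ n → f n ≠ g n} := by
  have h1 : {f : ℕ → ℕ | ∃ N, ∀ n, N ≤ n → f n ≠ g n} =
      ⋃ N : ℕ, {f : ℕ → ℕ | ∀ n, N ≤ n → f n ≠ g n} := by
    ext g
    simp
  rw [h1]
  refine isMeagre_iUnion fun N => IsNowhereDense.isMeagre ?_
  have hcl : IsClosed {f : ℕ → ℕ | ∀ n, N ≤ n → f n ≠ g n} := by
    have : {f : ℕ → ℕ | ∀ n, N ≤ n → f n ≠ g n} =
        ⋂ n : ℕ, ⋂ (_ : N ≤ n), {f : ℕ → ℕ | f n = g n}ᶜ := by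
      ext f
      simp only [mem_ofPred_eq, mem_iInter, mem_compl_iff, ne_eq]
    rw [this]
    refine isClosed_iInter fun n => isClosed_iInter fun _ => IsOpen.isClosed_compl ?_
    have hc : Continuous fun f : ℕ → ℕ => f n := continuous_apply n
    exact (isOpen_discrete ({g n} : Set ℕ)).preimage hc
  rw [IsNowhereDense, hcl.closure_eq, Set.eq_empty_iff_forall_notMem]
  intro f hf
  obtain ⟨U, hU, hUo, hgU⟩ := mem_interior.1 hf
  obtain ⟨I, u, hu, hsub⟩ := isOpen_pi_iff.1 hUo f hgU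
  obtain ⟨m, hm⟩ := I.finite_toSet.bddAbove
  have h2 : (fun i => if i = max N (m + 1) then g i else f i) ∈ U := by
    apply hsub
    intro i hi
    have h3 : i ≤ m := hm hi
    have h4 : i ≠ max N (m + 1) := by
      have := le_max_right N (m + 1)
      omega
    simp only [h4, if_false]
    exact (hu i hi).2
  have h3 := hU h2 (max N (m + 1)) (le_max_left _ _)
  simp at h3

theorem covMBaire_le {K : Type} (h : PhiFor K) : covMBaire ≤ #K := by
  obtain ⟨g, -, hg'⟩ := exists_eventually_different h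
  have h1 : covMBaire ≤ #(range fun k => {f : ℕ → ℕ | ∃ N, ∀ n, N ≤ n → f n ≠ g k n}) := by
    refine csInf_le' ⟨_, ?_, ?_, rfl⟩
    · rintro _ ⟨k, rfl⟩
      exact isMeagre_baire (g k)
    · refine eq_univ_of_forall fun y => ?_
      obtain ⟨k, hk⟩ := hg' y
      exact mem_sUnion.2 ⟨_, ⟨k, rfl⟩, hk⟩
  exact h1.trans mk_range_le

/-! ### The splitting number -/

theorem null_const {A : Set ℕ} (hA : A.Infinite) (v : Bool) (N : ℕ) :
    lam {x | ∀ n ∈ A, N ≤ n → x n = v} = 0 := by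
  have h1 : ∀ m : ℕ, lam {x | ∀ n ∈ A, N ≤ n → x n = v} ≤ (2 : ENNReal)⁻¹ ^ m := by
    intro m
    have h2 : (A \ Set.Iio N).Infinite := hA.sdiff (Set.finite_Iio N)
    obtain ⟨T, hT, hcard⟩ := h2.exists_subset_card_eq m
    rw [← hcard, ← lam_pi T fun _ => v]
    refine measure_mono fun x hx n hn => ?_
    have h3 := hT hn
    exact hx n h3.1 (not_lt.1 h3.2)
  have h2 := ENNReal.tendsto_pow_atTop_nhds_zero_of_lt_one
    (r := (2 : ENNReal)⁻¹) (ENNReal.inv_lt_one.2 (by norm_num))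
  exact le_antisymm (ge_of_tendsto' h2 h1) bot_le

theorem splitNumber_le {K : Type} (h : PhiFor K) : splitNumber ≤ #K := by
  obtain ⟨r, hr⟩ := exists_nonnull h
  have h1 : splitNumber ≤ #(range fun k => {n | r k n = true}) := by
    refine csInf_le' ⟨_, fun A hA => ?_, rfl⟩
    obtain ⟨k, hk⟩ := hr (⋃ v : Bool, ⋃ N : ℕ, {x | ∀ n ∈ A, N ≤ n → x n = v})
      (measure_iUnion_null fun v => measure_iUnion_null fun N => null_const hA v N)
    simp only [mem_iUnion, mem_ofPred_eq, not_exists, not_forall] at hk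
    refine ⟨_, ⟨k, rfl⟩, ?_, ?_⟩
    · refine Set.infinite_of_not_bddAbove fun ⟨b, hb⟩ => ?_
      obtain ⟨n, hn, hn', hn''⟩ := hk false (b + 1)
      have h3 : n ≤ b := hb ⟨hn, by simpa using hn''⟩
      omega
    · refine Set.infinite_of_not_bddAbove fun ⟨b, hb⟩ => ?_
      obtain ⟨n, hn, hn', hn''⟩ := hk true (b + 1)
      have h3 : n ≤ b := hb ⟨hn, hn''⟩
      omega
  exact h1.trans mk_range_le

end Pool.Agent.V11242.SS
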